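import Pool.Agent.Y415.CV.Sharp

/-!
# Covering by translates of a random set of size `√N`: the covering profile

Let `G` be a finite abelian group of order `N` and `k = ⌊√N⌋`. With high probability a random
`k`-element subset `A` of `G` has `|A + T| ≤ (1 - exp (- |T| / k) + ε) N` for ALL subsets `T` of
`G`, of any size, simultaneously. This is sharp: for EVERY `k`-element subset `A` of `G` and every
`m` some `T` with at most `m` elements has `|A + T| ≥ (1 - exp (- m / k) - ε) N`. For the groups
`ℤ/pℤ` and for sizes `|T| ≤ C k`, `C` fixed, both bounds were known with high probability (starting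
file `MP_cb22e8_co.SharpCovering`).
-/

set_option autoImplicit false

open Finset Filter
open scoped Classical

namespace Pool.Agent.Results.MP_d73134_co.SharpProportion

open Pool.Agent.Helper274.Cover Pool.Agent.Y415.CV

/-- The proportion of the subsets with exactly `⌊√|G|⌋` elements of `G` which have the
property `P`. -/
noncomputable def proportion (G : Type) [Fintype G] (P : Finset G → Prop) : ℝ :=
  (((Finset.powersetCard (Nat.sqrt (Fintype.card G)) (Finset.univ : Finset G)).filter P).card : ℝ) /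
    ((Finset.powersetCard (Nat.sqrt (Fintype.card G)) (Finset.univ : Finset G)).card : ℝ)

/-- The sumset `A + T`. -/
noncomputable def sumset {G : Type} [AddCommGroup G] [Fintype G] (A T : Finset G) : Finset G :=
  (Finset.univ : Finset G).filter (fun x => ∃ a ∈ A, ∃ t ∈ T, a + t = x)

lemma mem_sumset {G : Type} [AddCommGroup G] [Fintype G] {A T : Finset G} {x : G} :
    x ∈ sumset A T ↔ ∃ a ∈ A, ∃ t ∈ T, a + t = x := by
  unfold sumset
  simp

lemma proportion_mono {G : Type} [Fintype G] {P Q : Finset G → Prop}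
    (h : ∀ A, A.card = Nat.sqrt (Fintype.card G) → P A → Q A) : proportion G P ≤ proportion G Q := by
  unfold proportion
  apply div_le_div_of_nonneg_right _ (Nat.cast_nonneg _)
  have h1 : (Finset.powersetCard (Nat.sqrt (Fintype.card G)) (Finset.univ : Finset G)).filter P ⊆
      (Finset.powersetCard (Nat.sqrt (Fintype.card G)) (Finset.univ : Finset G)).filter Q := by
    intro A hA
    rw [Finset.mem_filter] at hA ⊢
    exact ⟨hA.1, h A (Finset.mem_powersetCard.mp hA.1).2 hA.2⟩
  exact_mod_cast Finset.card_le_card h1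

section
variable {G : Type} [AddCommGroup G] [Fintype G]

lemma unc_eq (T : Finset G) (L : List G) :
    unc T L = (Fintype.card G : ℝ) - ((sumset L.toFinset T).card : ℝ) := by
  have h1 : univ.filter (fun x => cnt T L x = 0) = (sumset L.toFinset T)ᶜ := by
    ext x
    rw [mem_filter, mem_compl, mem_sumset]
    unfold cnt rep
    rw [Finset.card_eq_zero, Finset.filter_eq_empty_iff]
    constructor
    · rintro ⟨-, h⟩ ⟨a, ha, t, ht, rfl⟩
      apply h ht
      rw [add_sub_cancel_right]
      exact List.mem_toFinset.mp ha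
    · intro h
      refine ⟨mem_univ _, fun t ht hL => h ⟨x - t, List.mem_toFinset.mpr hL, t, ht, by abel⟩⟩
  unfold unc
  rw [h1, Finset.card_compl, Nat.cast_sub]
  exact Finset.card_le_univ _

/-- the greedy step -/
lemma greedy_step (A T : Finset G) :
    ∃ t : G, ((Fintype.card G : ℝ) - ((sumset A (insert t T)).card : ℝ)) ≤
      ((Fintype.card G : ℝ) - ((sumset A T).card : ℝ)) * (1 - (A.card : ℝ) / Fintype.card G) := by
  have hN : (0:ℝ) < Fintype.card G := by exact_mod_cast Fintype.card_pos
  set U : Finset G := (sumset A T)ᶜ with hU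
  have hUc : (U.card : ℝ) = (Fintype.card G : ℝ) - ((sumset A T).card : ℝ) := by
    rw [hU, Finset.card_compl, Nat.cast_sub]
    exact Finset.card_le_univ _
  have hsum : ∑ t : G, (U.filter (fun x => x - t ∈ A)).card = U.card * A.card := by
    have h1 : ∑ t : G, (U.filter (fun x => x - t ∈ A)).card =
        ∑ x ∈ U, ((univ : Finset G).filter (fun t => x - t ∈ A)).card := by
      simp only [Finset.card_filter]
      rw [Finset.sum_comm]
    rw [h1]
    have h2 : ∀ x ∈ U, ((univ : Finset G).filter (fun t => x - t ∈ A)).card = A.card := by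
      intro x _
      apply Finset.card_bij (fun t _ => x - t)
      · intro t ht
        exact (mem_filter.mp ht).2
      · intro t _ t' _ h
        exact sub_right_injective h
      · intro a ha
        exact ⟨x - a, by rw [mem_filter]; exact ⟨mem_univ _, by rwa [sub_sub_cancel]⟩,
          sub_sub_cancel x a⟩
    rw [Finset.sum_congr rfl h2, Finset.sum_const, smul_eq_mul]
  obtain ⟨t, ht⟩ : ∃ t : G, (U.card : ℝ) * A.card / Fintype.card G ≤
      ((U.filter (fun x => x - t ∈ A)).card : ℝ) := by
    by_contra hcon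
    push Not at hcon
    have h3 : ∑ t : G, ((U.filter (fun x => x - t ∈ A)).card : ℝ) <
        ∑ _t : G, (U.card : ℝ) * A.card / Fintype.card G :=
      Finset.sum_lt_sum_of_nonempty univ_nonempty (fun t _ => hcon t)
    rw [Finset.sum_const, Finset.card_univ, nsmul_eq_mul, mul_div_cancel₀ _ hN.ne'] at h3
    have h4 : (∑ t : G, ((U.filter (fun x => x - t ∈ A)).card : ℝ)) = (U.card : ℝ) * A.card := by
      exact_mod_cast hsum
    rw [h4] at h3
    exact lt_irrefl _ h3
  refine ⟨t, ?_⟩
  have hdisj : (sumset A T).card + (U.filter (fun x => x - t ∈ A)).card ≤ (sumset A (insert t T)).card := by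
    rw [← Finset.card_union_of_disjoint]
    · apply Finset.card_le_card
      intro x hx
      rw [Finset.mem_union] at hx
      rcases hx with hx | hx
      · obtain ⟨a, ha, s, hs, rfl⟩ := mem_sumset.mp hx
        exact mem_sumset.mpr ⟨a, ha, s, Finset.mem_insert_of_mem hs, rfl⟩
      · exact mem_sumset.mpr ⟨x - t, (mem_filter.mp hx).2, t, Finset.mem_insert_self _ _,
          by abel⟩
    · rw [Finset.disjoint_left]
      intro x hx hx'
      exact (Finset.mem_compl.mp (mem_filter.mp hx').1) hx
  have h5 : ((sumset A T).card : ℝ) + ((U.filter (fun x => x - t ∈ A)).card : ℝ) ≤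
      ((sumset A (insert t T)).card : ℝ) := by exact_mod_cast hdisj
  rw [← hUc]
  have h6 : (U.card : ℝ) * (1 - (A.card : ℝ) / Fintype.card G) =
      U.card - (U.card : ℝ) * A.card / Fintype.card G := by ring
  rw [h6]
  linarith

lemma greedy (A : Finset G) (m : ℕ) : ∃ T : Finset G, T.card ≤ m ∧
    ((Fintype.card G : ℝ) - ((sumset A T).card : ℝ)) ≤
      (Fintype.card G : ℝ) * (1 - (A.card : ℝ) / Fintype.card G) ^ m := by
  have hN : (0:ℝ) < Fintype.card G := by exact_mod_cast Fintype.card_pos
  have h0 : 0 ≤ 1 - (A.card : ℝ) / Fintype.card G := by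
    have : (A.card : ℝ) / Fintype.card G ≤ 1 := by
      rw [div_le_one hN]
      exact_mod_cast Finset.card_le_univ A
    linarith
  induction m with
  | zero => exact ⟨∅, by simp, by simp⟩
  | succ m ih =>
    obtain ⟨T, hT, hT2⟩ := ih
    obtain ⟨t, ht⟩ := greedy_step A T
    refine ⟨insert t T, (Finset.card_insert_le _ _).trans (by omega), ht.trans ?_⟩
    calc _ ≤ ((Fintype.card G : ℝ) * (1 - (A.card : ℝ) / Fintype.card G) ^ m) *
          (1 - (A.card : ℝ) / Fintype.card G) := mul_le_mul_of_nonneg_right hT2 h0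
      _ = _ := by ring

end

lemma upper (C ε : ℝ) (hε : 0 < ε) (hC : 0 ≤ C) :
    ∀ᶠ N : ℕ in atTop, ∀ (G : Type) [AddCommGroup G] [Fintype G], Fintype.card G = N →
      proportion G (fun A => ∃ T : Finset G,
        (T.card : ℝ) ≤ C * (Nat.sqrt (Fintype.card G) : ℝ) ∧
        (1 - Real.exp (-C) + ε) * Fintype.card G < ((sumset A T).card : ℝ)) < ε := by
  filter_upwards [whp_sharp C hC ε hε (ε / 4) (by linarith), eventually_ge_atTop 1]
    with N hN hN1 G _ _ hG
  have h1 := hN G hG
  subst hG
  set N := Fintype.card G with hNdef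
  set k := Nat.sqrt N with hk
  set B : Finset (Finset G) := (Finset.powersetCard k (Finset.univ : Finset G)).filter
    (fun A => ∃ T : Finset G, (T.card : ℝ) ≤ C * (k : ℝ) ∧
        (1 - Real.exp (-C) + ε) * N < ((sumset A T).card : ℝ)) with hB
  have h2 := factorial_mul_le k B (by
    intro A hA
    exact (Finset.mem_powersetCard.mp (mem_filter.mp hA).1).2)
  have h3 : (((univ : Finset (Fin k → G)).filter
      (fun a => Function.Injective a ∧ univ.image a ∈ B)).card : ℝ) ≤
      bad k (fun L : List G => L.Nodup → ∀ T : Finset G, (T.card : ℝ) ≤ C * L.length →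
        (Real.exp (-C) - ε) * Fintype.card G ≤ unc T L) := by
    apply card_le_bad
    intro a ha hP
    obtain ⟨_, hinj, hcov⟩ := mem_filter.mp ha
    obtain ⟨_, T, hT, hTcov⟩ := mem_filter.mp hcov
    have h4 := hP (List.nodup_ofFn.mpr hinj) T (by simpa using hT)
    rw [unc_eq] at h4
    have h5 : (List.ofFn a).toFinset = univ.image a := by
      ext x
      simp [List.mem_ofFn]
    rw [h5, ← hNdef] at h4
    linarith
  have hkN : k ^ 2 ≤ N := Nat.sqrt_le' N
  have h4 := pow_le_two_descFactorial N k hkN hN1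
  have h5 : (N.descFactorial k : ℝ) = k.factorial * (N.choose k : ℝ) := by
    rw [Nat.descFactorial_eq_factorial_mul_choose]; push_cast; ring
  have hfact : (0:ℝ) < k.factorial := by exact_mod_cast Nat.factorial_pos k
  have h6 : (k.factorial : ℝ) * (B.card : ℝ) ≤
      (k.factorial : ℝ) * (ε / 2 * (N.choose k : ℝ)) := by
    calc (k.factorial : ℝ) * (B.card : ℝ) ≤
        (((univ : Finset (Fin k → G)).filter
          (fun a => Function.Injective a ∧ univ.image a ∈ B)).card : ℝ) := by
          exact_mod_cast h2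
      _ ≤ _ := h3
      _ ≤ ε / 4 * (N:ℝ) ^ k := h1
      _ ≤ ε / 4 * (2 * (N.descFactorial k : ℝ)) := by gcongr
      _ = _ := by rw [h5]; ring
  have h7 := le_of_mul_le_mul_left h6 hfact
  have hchoose : (0:ℝ) < (N.choose k : ℕ) := by
    exact_mod_cast Nat.choose_pos (Nat.sqrt_le_self N)
  have h8 : (B.card : ℝ) < ε * ((N.choose k : ℕ) : ℝ) := by
    refine lt_of_le_of_lt h7 ?_
    apply mul_lt_mul_of_pos_right _ hchoose
    linarith
  unfold proportion
  rw [Finset.card_powersetCard, Finset.card_univ, ← hNdef, ← hk, div_lt_iff₀ hchoose]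
  have h9 : ∀ s : Finset (Finset G), s = B → (s.card : ℝ) < ε * ((N.choose k : ℕ) : ℝ) := by
    intro s hs
    rw [hs]
    exact h8
  apply h9
  ext A
  simp only [hB, Finset.mem_filter]

lemma proportion_union {G : Type} [Fintype G] (M : ℕ) (P : ℕ → Finset G → Prop) :
    proportion G (fun A => ∃ i ∈ Finset.range (M + 1), P i A) ≤
      ∑ i ∈ Finset.range (M + 1), proportion G (P i) := by
  unfold proportion
  rw [← Finset.sum_div]
  apply div_le_div_of_nonneg_right _ (Nat.cast_nonneg _)
  rw [← Nat.cast_sum]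
  apply Nat.cast_le.mpr
  refine le_trans (Finset.card_le_card (t := (Finset.range (M + 1)).biUnion (fun i =>
    (Finset.powersetCard (Nat.sqrt (Fintype.card G)) (Finset.univ : Finset G)).filter (P i))) ?_)
    Finset.card_biUnion_le
  intro A hA
  simp only [Finset.mem_filter] at hA
  obtain ⟨hA1, i, hi, hP⟩ := hA
  rw [Finset.mem_biUnion]
  exact ⟨i, hi, Finset.mem_filter.mpr ⟨hA1, hP⟩⟩

/-- all sizes of `T` simultaneously -/
lemma uniform_upper (ε : ℝ) (hε : 0 < ε) :
    ∀ᶠ N : ℕ in atTop, ∀ (G : Type) [AddCommGroup G] [Fintype G], Fintype.card G = N →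
      proportion G (fun A => ∃ T : Finset G,
        (1 - Real.exp (-((T.card : ℝ) / Nat.sqrt (Fintype.card G))) + ε) * Fintype.card G <
          ((sumset A T).card : ℝ)) < ε := by
  obtain ⟨M, hM⟩ := exists_nat_gt (-Real.log ε / (ε / 2))
  have hM1 : (0:ℝ) < (M:ℝ) + 1 := by positivity
  set ε' : ℝ := min (ε / 2) (ε / (M + 1)) with hε'
  have hε'0 : 0 < ε' := lt_min (by linarith) (by positivity)
  have h1 : ∀ᶠ N : ℕ in atTop, ∀ i ∈ Finset.range (M + 1),
      ∀ (G : Type) [AddCommGroup G] [Fintype G], Fintype.card G = N →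
      proportion G (fun A => ∃ T : Finset G,
        (T.card : ℝ) ≤ ((i:ℝ) * (ε / 2)) * (Nat.sqrt (Fintype.card G) : ℝ) ∧
        (1 - Real.exp (-((i:ℝ) * (ε / 2))) + ε') * Fintype.card G <
          ((sumset A T).card : ℝ)) < ε' := by
    rw [Filter.eventually_all_finset]
    intro i _
    exact upper ((i:ℝ) * (ε / 2)) ε' hε'0 (by positivity)
  filter_upwards [h1, eventually_ge_atTop 1] with N hN hN1 G _ _ hG
  have h2 := fun i hi => hN i hi G hG
  subst hG
  set N := Fintype.card G with hNdef
  set k := Nat.sqrt N with hk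
  have hN0 : (0:ℝ) < N := by exact_mod_cast hN1
  have hk1 : 1 ≤ k := by
    rw [hk, Nat.le_sqrt]
    omega
  have hk0 : (0:ℝ) < k := by exact_mod_cast hk1
  refine lt_of_le_of_lt (proportion_mono ?_) (lt_of_le_of_lt (proportion_union M (fun i A =>
    ∃ T : Finset G, (T.card : ℝ) ≤ ((i:ℝ) * (ε / 2)) * (k : ℝ) ∧
        (1 - Real.exp (-((i:ℝ) * (ε / 2))) + ε') * N < ((sumset A T).card : ℝ))) ?_)
  · rintro A - ⟨T, hT⟩
    have h3 : ((sumset A T).card : ℝ) ≤ N := by
      rw [hNdef]
      exact_mod_cast Finset.card_le_univ _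
    set x : ℝ := (T.card : ℝ) / k with hx
    have hx0 : 0 ≤ x := by positivity
    have hexp : ε < Real.exp (-x) := by
      by_contra hcon
      push Not at hcon
      have : (N:ℝ) ≤ (1 - Real.exp (-x) + ε) * N := by nlinarith
      linarith
    have hxlog : x < -Real.log ε := by
      have := Real.log_lt_log hε hexp
      rw [Real.log_exp] at this
      linarith
    have hxM : x / (ε / 2) < M := by
      refine lt_of_le_of_lt ?_ hM
      apply div_le_div_of_nonneg_right hxlog.le (by linarith)
    set i : ℕ := ⌈x / (ε / 2)⌉₊ with hi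
    have hiM : i ≤ M := Nat.ceil_le.mpr hxM.le
    have hi1 : x / (ε / 2) ≤ i := Nat.le_ceil _
    have hi2 : (i:ℝ) < x / (ε / 2) + 1 := Nat.ceil_lt_add_one (by positivity)
    have hi1' : x ≤ i * (ε / 2) := by
      rwa [div_le_iff₀ (by linarith)] at hi1
    have hi2' : (i:ℝ) * (ε / 2) ≤ x + ε / 2 := by
      have h4 := mul_le_mul_of_nonneg_right hi2.le (show (0:ℝ) ≤ ε / 2 by linarith)
      have h5 : (x / (ε / 2) + 1) * (ε / 2) = x + ε / 2 := by
        field_simp
      linarith
    refine ⟨i, Finset.mem_range.mpr (by omega), T, ?_, ?_⟩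
    · have h6 : (T.card : ℝ) = x * k := by
        rw [hx]
        field_simp
      rw [h6]
      exact mul_le_mul_of_nonneg_right hi1' hk0.le
    · have h7 : Real.exp (-x) - ε / 2 ≤ Real.exp (-((i:ℝ) * (ε / 2))) := by
        have h8 : Real.exp (-(x + ε / 2)) ≤ Real.exp (-((i:ℝ) * (ε / 2))) :=
          Real.exp_le_exp.mpr (by linarith)
        have h9 : Real.exp (-(x + ε / 2)) = Real.exp (-x) * Real.exp (-(ε / 2)) := by
          rw [← Real.exp_add]
          congr 1
          ring
        have h10 : 1 - ε / 2 ≤ Real.exp (-(ε / 2)) := by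
          have := Real.add_one_le_exp (-(ε / 2))
          linarith
        have h11 : Real.exp (-x) ≤ 1 := by
          rw [Real.exp_le_one_iff]
          linarith
        have h12 : 0 < Real.exp (-x) := Real.exp_pos _
        have h13 : Real.exp (-x) * (1 - ε / 2) ≤ Real.exp (-x) * Real.exp (-(ε / 2)) :=
          mul_le_mul_of_nonneg_left h10 h12.le
        have h14 : Real.exp (-x) * (ε / 2) ≤ 1 * (ε / 2) :=
          mul_le_mul_of_nonneg_right h11 (by linarith)
        linarith
      have h15 : ε' ≤ ε / 2 := min_le_left _ _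
      refine lt_of_le_of_lt ?_ hT
      apply mul_le_mul_of_nonneg_right _ hN0.le
      linarith
  · have h16 : ∑ i ∈ Finset.range (M + 1), proportion G (fun A => ∃ T : Finset G,
        (T.card : ℝ) ≤ ((i:ℝ) * (ε / 2)) * (k : ℝ) ∧
        (1 - Real.exp (-((i:ℝ) * (ε / 2))) + ε') * N < ((sumset A T).card : ℝ)) <
        ∑ _i ∈ Finset.range (M + 1), ε / (M + 1) := by
      apply Finset.sum_lt_sum_of_nonempty ⟨0, Finset.mem_range.mpr (by omega)⟩
      intro i hi
      exact lt_of_lt_of_le (h2 i hi) (min_le_right _ _)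
    rw [Finset.sum_const, Finset.card_range, nsmul_eq_mul] at h16
    have h17 : ((M + 1 : ℕ) : ℝ) * (ε / (M + 1)) = ε := by
      push_cast
      field_simp
    rw [h17] at h16
    exact h16

lemma exp_unif (c x : ℝ) (hc : 1 / 2 ≤ c) (hc1 : c ≤ 1) (hx : 0 ≤ x) :
    Real.exp (-(c * x)) ≤ Real.exp (-x) + 2 * (1 - c) := by
  have h1 : Real.exp (-x) = Real.exp (-(c * x)) * Real.exp (-((1 - c) * x)) := by
    rw [← Real.exp_add]
    congr 1
    ring
  have h2 : 1 - (1 - c) * x ≤ Real.exp (-((1 - c) * x)) := by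
    have := Real.add_one_le_exp (-((1 - c) * x))
    linarith
  have h3 : 0 < Real.exp (-(c * x)) := Real.exp_pos _
  have h4 := mul_le_mul_of_nonneg_left h2 h3.le
  have h5 : c * x * Real.exp (-(c * x)) ≤ 1 := by
    have h6 := Real.add_one_le_exp (c * x)
    have h7 : Real.exp (c * x) * Real.exp (-(c * x)) = 1 := by
      rw [← Real.exp_add]
      simp
    have h8 : c * x * Real.exp (-(c * x)) ≤ Real.exp (c * x) * Real.exp (-(c * x)) :=
      mul_le_mul_of_nonneg_right (by linarith) h3.le
    linarith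
  have h9 : x * Real.exp (-(c * x)) ≤ 2 := by
    have h10 : 0 ≤ x * Real.exp (-(c * x)) := by positivity
    nlinarith
  have h11 : Real.exp (-(c * x)) * ((1 - c) * x) ≤ (1 - c) * 2 := by
    have := mul_le_mul_of_nonneg_left h9 (show 0 ≤ 1 - c by linarith)
    linarith
  rw [h1]
  linarith

/-- the greedy bound for all sizes -/
lemma exp_bound (ε : ℝ) (hε : 0 < ε) :
    ∀ᶠ N : ℕ in atTop, ∀ m : ℕ, (1 - (Nat.sqrt N : ℝ) / N) ^ m ≤
      Real.exp (-((m : ℝ) / Nat.sqrt N)) + ε := by
  have h1 : Tendsto (fun N : ℕ => 4 / Real.sqrt N) atTop (nhds 0) := by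
    apply Tendsto.div_atTop tendsto_const_nhds
    exact Real.tendsto_sqrt_atTop.comp tendsto_natCast_atTop_atTop
  filter_upwards [h1.eventually_le_const hε, eventually_ge_atTop 16] with N hN hN1 m
  set k : ℕ := Nat.sqrt N with hk
  have hN0 : (0:ℝ) < N := by exact_mod_cast (show 0 < N by omega)
  have hs0 : 0 < Real.sqrt N := Real.sqrt_pos.mpr hN0
  have hss : Real.sqrt N * Real.sqrt N = N := Real.mul_self_sqrt hN0.le
  have hs4 : 4 ≤ Real.sqrt N := by
    rw [show (4:ℝ) = Real.sqrt 16 by
      rw [show (16:ℝ) = 4 ^ 2 by norm_num]; exact (Real.sqrt_sq (by norm_num)).symm]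
    exact Real.sqrt_le_sqrt (by exact_mod_cast hN1)
  have hks : (k : ℝ) ≤ Real.sqrt N := Real.nat_sqrt_le_real_sqrt
  have hsk : Real.sqrt N ≤ (k : ℝ) + 1 := Real.real_sqrt_le_nat_sqrt_succ
  have hk0 : (0:ℝ) < k := by linarith
  have hkN : (k : ℝ) ≤ N := by exact_mod_cast Nat.sqrt_le_self N
  set c : ℝ := (k : ℝ) * k / N with hc
  have hc1 : c ≤ 1 := by
    rw [hc, div_le_one hN0]
    nlinarith
  have hc2 : 1 - 2 / Real.sqrt N ≤ c := by
    rw [hc, le_div_iff₀ hN0]
    have e0 : 2 / Real.sqrt N * N = 2 * Real.sqrt N := by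
      rw [div_mul_eq_mul_div, div_eq_iff hs0.ne']
      linear_combination (-2) * hss
    have e1 : (1 - 2 / Real.sqrt N) * N = N - 2 * Real.sqrt N := by
      rw [sub_mul, one_mul, e0]
    rw [e1]
    nlinarith
  have hc3 : 1 / 2 ≤ c := by
    have : 2 / Real.sqrt N ≤ 1 / 2 := by
      rw [div_le_iff₀ hs0]
      linarith
    linarith
  have hbase0 : 0 ≤ 1 - (k : ℝ) / N := by
    have : (k : ℝ) / N ≤ 1 := by rw [div_le_one hN0]; exact hkN
    linarith
  have hexp : (1 - (k : ℝ) / N) ^ m ≤ Real.exp (-(c * ((m : ℝ) / k))) := by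
    calc (1 - (k : ℝ) / N) ^ m ≤ (Real.exp (-((k : ℝ) / N))) ^ m := by
          apply pow_le_pow_left₀ hbase0
          have := Real.add_one_le_exp (-((k : ℝ) / N))
          linarith
      _ = Real.exp (-(c * ((m : ℝ) / k))) := by
          rw [← Real.exp_nat_mul]
          congr 1
          rw [hc]
          field_simp
  have h2 := exp_unif c ((m : ℝ) / k) hc3 hc1 (by positivity)
  have h3 : 2 * (1 - c) ≤ 4 / Real.sqrt N := by
    have : 4 / Real.sqrt N = 2 * (2 / Real.sqrt N) := by ring
    linarith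
  linarith

/-- **The covering profile.** (1) For every `ε > 0` there is `N₀` such that for every finite abelian
group `G` of order `N ≥ N₀`, with `k = ⌊√N⌋`: all but a proportion of less than `ε` of the
`k`-element subsets `A` of `G` satisfy `|A + T| ≤ (1 - exp (- |T| / k) + ε) N` for all subsets `T`
of `G`; and for every `k`-element subset `A` of `G` and every `m` there is a set `T` with at most
`m` elements and `|A + T| ≥ (1 - exp (- m / k) - ε) N`.
(2) In particular, for every `C` and `ε > 0`, for all large `p`, the proportion of the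
`⌊√p⌋`-element subsets `A` of `ℤ/pℤ` with `A + T = ℤ/pℤ` for some `T` with at most `C ⌊√p⌋`
elements is less than `ε`. -/
theorem result :
    (∀ ε : ℝ, 0 < ε → ∃ N₀ : ℕ, ∀ (G : Type) [AddCommGroup G] [Fintype G],
      N₀ ≤ Fintype.card G →
      proportion G (fun A => ∃ T : Finset G,
        (1 - Real.exp (-((T.card : ℝ) / Nat.sqrt (Fintype.card G))) + ε) * Fintype.card G <
          ((sumset A T).card : ℝ)) < ε ∧
      ∀ A : Finset G, A.card = Nat.sqrt (Fintype.card G) → ∀ m : ℕ, ∃ T : Finset G,
        T.card ≤ m ∧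
        (1 - Real.exp (-((m : ℝ) / Nat.sqrt (Fintype.card G))) - ε) * Fintype.card G ≤
          ((sumset A T).card : ℝ)) ∧
    ∀ C ε : ℝ, 0 < ε → ∃ N₀ : ℕ, ∀ (p : ℕ) [NeZero p], N₀ ≤ p →
      proportion (ZMod p) (fun A => ∃ T : Finset (ZMod p),
        (T.card : ℝ) ≤ C * (Nat.sqrt p : ℝ) ∧ ∀ x, ∃ a ∈ A, ∃ t ∈ T, a + t = x) < ε := by
  constructor
  · intro ε hε
    obtain ⟨N1, h1⟩ := Filter.eventually_atTop.mp (uniform_upper ε hε)
    obtain ⟨N2, h2⟩ := Filter.eventually_atTop.mp (exp_bound ε hε)
    refine ⟨max N1 N2, fun G _ _ hG => ⟨h1 _ (le_trans (le_max_left _ _) hG) G rfl, ?_⟩⟩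
    intro A hA m
    obtain ⟨T, hT1, hT2⟩ := greedy A m
    refine ⟨T, hT1, ?_⟩
    have h5 := h2 _ (le_trans (le_max_right _ _) hG) m
    rw [hA] at hT2
    have hN : (0:ℝ) < Fintype.card G := by exact_mod_cast Fintype.card_pos
    have h6 := mul_le_mul_of_nonneg_left h5 hN.le
    linarith
  · intro C ε hε
    have hCp := Real.exp_pos (-C)
    obtain ⟨N3, h3⟩ := Filter.eventually_atTop.mp
      (uniform_upper (min ε (Real.exp (-C) / 2)) (lt_min hε (by linarith)))
    refine ⟨N3, fun p _ hp => ?_⟩
    have h4 := h3 p hp (ZMod p) (ZMod.card p)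
    have hp1 : 1 ≤ p := Nat.one_le_iff_ne_zero.mpr (NeZero.ne p)
    have hp0 : (0:ℝ) < p := by exact_mod_cast hp1
    have hk1 : 1 ≤ Nat.sqrt p := by
      rw [Nat.le_sqrt]
      omega
    have hk0 : (0:ℝ) < Nat.sqrt p := by exact_mod_cast hk1
    refine lt_of_le_of_lt (proportion_mono ?_) (lt_of_lt_of_le h4 (min_le_left _ _))
    rintro A - ⟨T, hT, hAT⟩
    refine ⟨T, ?_⟩
    have hST : sumset A T = Finset.univ := by
      ext x
      simp only [mem_sumset, Finset.mem_univ, iff_true]
      exact hAT x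
    rw [hST, Finset.card_univ, ZMod.card]
    have h5 : min ε (Real.exp (-C) / 2) ≤ Real.exp (-C) / 2 := min_le_right _ _
    have h6 : (T.card : ℝ) / Nat.sqrt p ≤ C := by
      rwa [div_le_iff₀ hk0]
    have h7 : Real.exp (-C) ≤ Real.exp (-((T.card : ℝ) / Nat.sqrt p)) :=
      Real.exp_le_exp.mpr (by linarith)
    nlinarith

end Pool.Agent.Results.MP_d73134_co.SharpProportion
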